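import Pool.Agent.U762.RP.Stm

set_option autoImplicit false

/-!
Project RP (helper762), package AVG: averages of the killed annealed chain over arithmetic progressions.
-/

namespace Pool.Agent.U594.RP

open Finset Pool.Agent.U762.RP

theorem sum_split (d n : ℕ) (h : ℕ → ℝ) :
    ∑ u ∈ range (d * n), h u = ∑ s ∈ range d, ∑ v ∈ range n, h (s + d * v) := by
  induction n with
  | zero => simp
  | succ n ih =>
    rw [Nat.mul_succ, Finset.sum_range_add, ih]
    simp only [Finset.sum_range_succ, Finset.sum_add_distrib]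
    congr 1
    exact Finset.sum_congr rfl fun s _ => by rw [Nat.add_comm]

theorem V_nonneg (M θ : ℝ) (x : ℤ) : 0 ≤ V M θ x := by
  unfold V
  split_ifs
  · exact le_rfl
  · exact Real.rpow_nonneg (abs_nonneg _) _

theorem Q_nonneg {d : ℕ} {m r : ℤ → ℤ} {w : ℤ → ℝ} (hw : ∀ u, 0 ≤ w u) (B : ℕ) (M : ℝ) {F : ℤ → ℝ}
    (hF : ∀ x, 0 ≤ F x) (x : ℤ) : 0 ≤ Q d m r w B M F x := by
  unfold Q
  split_ifs
  · exact le_rfl
  · exact Finset.sum_nonneg fun u _ => mul_nonneg (hw u) (hF _)

theorem Qit_nonneg {d : ℕ} {m r : ℤ → ℤ} {w : ℤ → ℝ} (hw : ∀ u, 0 ≤ w u) (B : ℕ) (M θ : ℝ) (k : ℕ) :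
    ∀ x, 0 ≤ (Q d m r w B M)^[k] (V M θ) x := by
  induction k with
  | zero => exact V_nonneg M θ
  | succ k ih =>
    intro x
    rw [Function.iterate_succ_apply']
    exact Q_nonneg hw B M ih x

theorem Q_le {d : ℕ} {m r : ℤ → ℤ} {w : ℤ → ℝ} (hw : ∀ u, 0 ≤ w u) (B : ℕ) (M : ℝ) {F : ℤ → ℝ}
    (hF : ∀ x, 0 ≤ F x) (x : ℤ) :
    Q d m r w B M F x ≤ ∑ u ∈ Icc (-(B : ℤ)) B, w u * F (T d m r x + u) := by
  unfold Q
  split_ifs
  · exact Finset.sum_nonneg fun u _ => mul_nonneg (hw u) (hF _)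
  · exact le_rfl

theorem T_shift {d : ℕ} {m r : ℤ → ℤ} (hd : 0 < d) (a b : ℤ) :
    T d m r (a + d * b) = T d m r a + m (a % d) * b := by
  unfold T
  rw [Int.add_mul_emod_self_left]
  have h1 : m (a % d) * (a + d * b) - r (a % d) = (m (a % d) * a - r (a % d)) + d * (m (a % d) * b) := by
    ring
  rw [h1, Int.add_mul_ediv_left _ _ (by exact_mod_cast hd.ne')]

theorem T_exact {d : ℕ} {m r : ℤ → ℤ} (h : Rel d m r) (x : ℤ) :
    (d : ℤ) * T d m r x = m (x % d) * x - r (x % d) := by
  unfold T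
  apply Int.mul_ediv_cancel'
  have hd : (0 : ℤ) < d := by have := h.two_le; omega
  have h1 := h.dvd (x % d) (Int.emod_nonneg _ hd.ne') (Int.emod_lt_of_pos _ hd)
  have h2 : m (x % d) * x - r (x % d)
      = (m (x % d) * (x % d) - r (x % d)) + d * (m (x % d) * (x / d)) := by
    have h3 := Int.emod_add_mul_ediv x d
    linear_combination (-(m (x % d))) * h3
  rw [h2]
  exact dvd_add h1 (dvd_mul_right _ _)

/-- the residues `(y + c s) mod d` run through all residues -/
theorem sum_residues {d : ℕ} (hd : 0 < d) {c : ℤ} (hc : IsCoprime c (d : ℤ)) (y : ℤ) (f : ℕ → ℝ) :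
    ∑ s ∈ range d, f ((y + c * (s : ℤ)) % d).toNat = ∑ j ∈ range d, f j := by
  have hd' : (0 : ℤ) < d := by exact_mod_cast hd
  have hmem : ∀ s ∈ range d, ((y + c * (s : ℤ)) % d).toNat ∈ range d := by
    intro s _
    rw [Finset.mem_range]
    have h1 := Int.emod_nonneg (y + c * (s : ℤ)) hd'.ne'
    have h2 := Int.emod_lt_of_pos (y + c * (s : ℤ)) hd'
    omega
  have hinj : Set.InjOn (fun s : ℕ => ((y + c * (s : ℤ)) % d).toNat) (range d : Set ℕ) := by
    intro s hs t ht hst
    simp only [Finset.coe_range, Set.mem_Iio] at hs ht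
    have h1 := Int.emod_nonneg (y + c * (s : ℤ)) hd'.ne'
    have h2 := Int.emod_nonneg (y + c * (t : ℤ)) hd'.ne'
    have h3 : (y + c * (s : ℤ)) % d = (y + c * (t : ℤ)) % d := by
      simp only at hst
      omega
    have h4 : (d : ℤ) ∣ (y + c * (s : ℤ)) - (y + c * (t : ℤ)) :=
      Int.dvd_of_emod_eq_zero (Int.emod_eq_emod_iff_emod_sub_eq_zero.mp h3)
    have h5 : (d : ℤ) ∣ c * ((s : ℤ) - t) := by
      have h6 : c * ((s : ℤ) - t) = (y + c * (s : ℤ)) - (y + c * (t : ℤ)) := by ring
      rw [h6]; exact h4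
    have h6 : (d : ℤ) ∣ (s : ℤ) - t := hc.symm.dvd_of_dvd_mul_left h5
    have h7 : |(s : ℤ) - t| < d := by
      rw [abs_lt]; constructor <;> omega
    have h8 := Int.eq_zero_of_abs_lt_dvd h6 h7
    omega
  have himg : (range d).image (fun s : ℕ => ((y + c * (s : ℤ)) % d).toNat) = range d := by
    apply Finset.eq_of_subset_of_card_le
    · intro j hj
      obtain ⟨s, hs, rfl⟩ := Finset.mem_image.mp hj
      exact hmem s hs
    · rw [Finset.card_image_of_injOn hinj]
  conv_rhs => rw [← himg]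
  rw [Finset.sum_image hinj]

/-- the growth bound for one step -/
theorem step_bound {d : ℕ} {m r : ℤ → ℤ} (h : Rel d m r) {η z : ℝ} (hη : 0 < η) (B : ℕ) (j : ℕ)
    (hj : j ∈ range d) (hz : (|((r (j : ℤ) : ℤ) : ℝ)| + d * B) / η ≤ z) (x : ℤ) (hx : x % d = (j : ℤ))
    (hxz : |(x : ℝ)| ≤ z) (u : ℤ) (hu : |u| ≤ B) :
    |((T d m r x + u : ℤ) : ℝ)| ≤ fac d m η j * z := by
  have hd : 0 < d := by have := h.two_le; omega
  have hdR : (0 : ℝ) < d := by exact_mod_cast hd
  have hjd : (j : ℤ) < d := by exact_mod_cast Finset.mem_range.mp hj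
  have hmj : (1 : ℝ) ≤ (m (j : ℤ) : ℝ) := by
    have := h.pos (j : ℤ) (by positivity) hjd
    exact_mod_cast this
  have h1 := T_exact h x
  rw [hx] at h1
  have h2 : (d : ℝ) * (T d m r x : ℝ) = (m (j : ℤ) : ℝ) * x - (r (j : ℤ) : ℝ) := by exact_mod_cast h1
  have hu' : |(u : ℝ)| ≤ B := by exact_mod_cast hu
  have h3 : (d : ℝ) * |(T d m r x : ℝ)| ≤ (m (j : ℤ) : ℝ) * z + |(r (j : ℤ) : ℝ)| := by
    have h4 : (d : ℝ) * |(T d m r x : ℝ)| = |(d : ℝ) * (T d m r x : ℝ)| := by
      rw [abs_mul, abs_of_pos hdR]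
    rw [h4, h2]
    calc |(m (j : ℤ) : ℝ) * x - (r (j : ℤ) : ℝ)| ≤ |(m (j : ℤ) : ℝ) * x| + |(r (j : ℤ) : ℝ)| := abs_sub _ _
      _ = (m (j : ℤ) : ℝ) * |(x : ℝ)| + |(r (j : ℤ) : ℝ)| := by
          rw [abs_mul, abs_of_nonneg (by linarith : (0 : ℝ) ≤ (m (j : ℤ) : ℝ))]
      _ ≤ _ := by
          have := mul_le_mul_of_nonneg_left hxz (by linarith : (0 : ℝ) ≤ (m (j : ℤ) : ℝ))
          linarith
  have h5 : |((T d m r x + u : ℤ) : ℝ)| ≤ |(T d m r x : ℝ)| + B := by
    push_cast
    exact (abs_add_le _ _).trans (by linarith)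
  have h6 : |(r (j : ℤ) : ℝ)| + d * B ≤ η * z := by
    have := (div_le_iff₀ hη).mp hz
    linarith
  have h7 : (d : ℝ) * (fac d m η j * z) = (m (j : ℤ) : ℝ) * z + (m (j : ℤ) : ℝ) * (η * z) := by
    unfold fac
    field_simp
  have hηz : 0 ≤ η * z := le_trans (by positivity) h6
  have h8 : η * z ≤ (m (j : ℤ) : ℝ) * (η * z) := le_mul_of_one_le_left hηz hmj
  have h9 : (d : ℝ) * |((T d m r x + u : ℤ) : ℝ)| ≤ (d : ℝ) * (fac d m η j * z) := by
    rw [h7]
    have := mul_le_mul_of_nonneg_left h5 hdR.le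
    nlinarith
  exact le_of_mul_le_mul_left h9 hdR

theorem t_AVG : S_AVG := by
  intro d m r h θ η hθ hθ1 hη B
  have hd : 0 < d := by have := h.two_le; omega
  have hdR : (0 : ℝ) < d := by exact_mod_cast hd
  have hfac0 : ∀ j ∈ range d, 0 ≤ fac d m η j := by
    intro j hj
    have hjd : (j : ℤ) < d := by exact_mod_cast Finset.mem_range.mp hj
    have h1 : (0 : ℝ) < (m (j : ℤ) : ℝ) := by exact_mod_cast h.pos (j : ℤ) (by positivity) hjd
    unfold fac
    positivity
  have hρ : 0 ≤ (∑ j ∈ range d, fac d m η j ^ θ) / d :=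
    div_nonneg (Finset.sum_nonneg fun j hj => Real.rpow_nonneg (hfac0 j hj) _) hdR.le
  set M₀ : ℝ := 1 + ∑ j ∈ range d, (|((r (j : ℤ) : ℤ) : ℝ)| + d * B) / η with hM₀
  have hterm : ∀ j ∈ range d, (|((r (j : ℤ) : ℤ) : ℝ)| + d * B) / η ≤ M₀ := by
    intro j hj
    have := Finset.single_le_sum (f := fun j : ℕ => (|((r (j : ℤ) : ℤ) : ℝ)| + d * B) / η)
      (fun i _ => by positivity) hj
    have h2 : (|((r (j : ℤ) : ℤ) : ℝ)| + d * B) / η ≤
      ∑ j ∈ range d, (|((r (j : ℤ) : ℤ) : ℝ)| + d * B) / η := this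
    linarith
  refine ⟨M₀, ?_, ?_⟩
  · have : 0 ≤ ∑ j ∈ range d, (|((r (j : ℤ) : ℤ) : ℝ)| + d * B) / η :=
      Finset.sum_nonneg fun i _ => by positivity
    linarith
  intro M hM w hw hw1 k
  induction k with
  | zero =>
    intro i _ c y _ z hz hxz
    simp only [Function.iterate_zero, id_eq, pow_zero, mul_one]
    have h1 : ∀ u ∈ range (d ^ i), V M θ (y + c * u) ≤ z ^ θ := by
      intro u hu
      unfold V
      split_ifs
      · exact Real.rpow_nonneg hz _
      · have := hxz u (Finset.mem_range.mp hu)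
        exact Real.rpow_le_rpow (abs_nonneg _) this hθ.le
    calc ∑ u ∈ range (d ^ i), V M θ (y + c * u) ≤ ∑ u ∈ range (d ^ i), z ^ θ := Finset.sum_le_sum h1
      _ = (d : ℝ) ^ i * z ^ θ := by simp
  | succ k ih =>
    intro i hki c y hc z hz hxz
    obtain ⟨i', rfl⟩ : ∃ i', i = i' + 1 := ⟨i - 1, by omega⟩
    have hki' : k ≤ i' := by omega
    set F : ℤ → ℝ := (Q d m r w B M)^[k] (V M θ) with hF
    have hF0 : ∀ x, 0 ≤ F x := Qit_nonneg hw B M θ k
    have hit : ∀ x, (Q d m r w B M)^[k + 1] (V M θ) x = Q d m r w B M F x := by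
      intro x
      rw [Function.iterate_succ_apply']
    simp only [hit]
    by_cases hzM : z < M
    · have h0 : ∀ u ∈ range (d ^ (i' + 1)), Q d m r w B M F (y + c * u) = 0 := by
        intro u hu
        unfold Q
        rw [if_pos]
        have := hxz u (Finset.mem_range.mp hu)
        linarith
      rw [Finset.sum_eq_zero h0]
      have := Real.rpow_nonneg hz θ
      positivity
    · push Not at hzM
      -- the bound for a fixed class `s`
      have key : ∀ s ∈ range d, ∑ v ∈ range (d ^ i'), Q d m r w B M F (y + c * ((s + d * v : ℕ) : ℤ)) ≤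
          (d : ℝ) ^ i' * ((∑ j ∈ range d, fac d m η j ^ θ) / d) ^ k *
            (fac d m η ((y + c * (s : ℤ)) % d).toNat ^ θ * z ^ θ) := by
        intro s hs
        set j : ℕ := ((y + c * (s : ℤ)) % d).toNat with hj
        have hd' : (0 : ℤ) < d := by exact_mod_cast hd
        have hj1 := Int.emod_nonneg (y + c * (s : ℤ)) hd'.ne'
        have hj2 := Int.emod_lt_of_pos (y + c * (s : ℤ)) hd'
        have hjj : (y + c * (s : ℤ)) % d = (j : ℤ) := by omega
        have hjr : j ∈ range d := by rw [Finset.mem_range]; omega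
        have hxv : ∀ v : ℕ, y + c * ((s + d * v : ℕ) : ℤ) = (y + c * s) + d * (c * v) := by
          intro v; push_cast; ring
        have hTv : ∀ v : ℕ, T d m r (y + c * ((s + d * v : ℕ) : ℤ))
            = T d m r (y + c * s) + m (j : ℤ) * c * v := by
          intro v
          rw [hxv v, T_shift hd, hjj]
          ring
        have hb : ∀ v : ℕ, v < d ^ i' → ∀ u ∈ Icc (-(B : ℤ)) B,
            |((T d m r (y + c * s) + u + m (j : ℤ) * c * v : ℤ) : ℝ)| ≤ fac d m η j * z := by
          intro v hv u hu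
          have hu' : |u| ≤ B := by
            rw [Finset.mem_Icc] at hu
            exact abs_le.mpr hu
          have hlt : s + d * v < d ^ (i' + 1) := by
            have hs' := Finset.mem_range.mp hs
            calc s + d * v < d + d * v := by omega
              _ = d * (v + 1) := by ring
              _ ≤ d * d ^ i' := Nat.mul_le_mul_left _ hv
              _ = d ^ (i' + 1) := by ring
          have h1 := hxz _ hlt
          have h2 : (y + c * ((s + d * v : ℕ) : ℤ)) % d = (j : ℤ) := by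
            rw [hxv v, Int.add_mul_emod_self_left, hjj]
          have h3 := step_bound h hη B j hjr ((hterm j hjr).trans (hM.trans hzM)) _ h2 h1 u hu'
          rw [hTv v] at h3
          have h4 : T d m r (y + c * s) + u + m (j : ℤ) * c * v
              = T d m r (y + c * s) + m (j : ℤ) * c * v + u := by ring
          rw [h4]
          exact h3
        have hcop : IsCoprime (m (j : ℤ) * c) (d : ℤ) := by
          have hjd : (j : ℤ) < d := by exact_mod_cast Finset.mem_range.mp hjr
          exact IsCoprime.mul_left (h.cop (j : ℤ) (by positivity) hjd) hc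
        have hih : ∀ u ∈ Icc (-(B : ℤ)) B,
            ∑ v ∈ range (d ^ i'), F (T d m r (y + c * s) + u + m (j : ℤ) * c * v) ≤
              (d : ℝ) ^ i' * ((∑ j ∈ range d, fac d m η j ^ θ) / d) ^ k * (fac d m η j * z) ^ θ := by
          intro u hu
          exact ih i' hki' (m (j : ℤ) * c) (T d m r (y + c * s) + u) hcop (fac d m η j * z)
            (mul_nonneg (hfac0 j hjr) hz) (fun v hv => hb v hv u hu)
        have hrpow : (fac d m η j * z) ^ θ = fac d m η j ^ θ * z ^ θ := Real.mul_rpow (hfac0 j hjr) hz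
        have hX : 0 ≤ (d : ℝ) ^ i' * ((∑ j ∈ range d, fac d m η j ^ θ) / d) ^ k *
            (fac d m η j ^ θ * z ^ θ) := by
          have h1 := Real.rpow_nonneg hz θ
          have h2 := Real.rpow_nonneg (hfac0 j hjr) θ
          positivity
        calc ∑ v ∈ range (d ^ i'), Q d m r w B M F (y + c * ((s + d * v : ℕ) : ℤ))
            ≤ ∑ v ∈ range (d ^ i'), ∑ u ∈ Icc (-(B : ℤ)) B,
                w u * F (T d m r (y + c * s) + u + m (j : ℤ) * c * v) := by
              refine Finset.sum_le_sum fun v _ => ?_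
              refine (Q_le hw B M hF0 _).trans (le_of_eq ?_)
              refine Finset.sum_congr rfl fun u _ => ?_
              rw [hTv v]
              congr 2
              ring
          _ = ∑ u ∈ Icc (-(B : ℤ)) B, w u *
                ∑ v ∈ range (d ^ i'), F (T d m r (y + c * s) + u + m (j : ℤ) * c * v) := by
              rw [Finset.sum_comm]
              refine Finset.sum_congr rfl fun u _ => ?_
              rw [Finset.mul_sum]
          _ ≤ ∑ u ∈ Icc (-(B : ℤ)) B, w u *
                ((d : ℝ) ^ i' * ((∑ j ∈ range d, fac d m η j ^ θ) / d) ^ k *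
                  (fac d m η j ^ θ * z ^ θ)) := by
              refine Finset.sum_le_sum fun u hu => ?_
              have := hih u hu
              rw [hrpow] at this
              exact mul_le_mul_of_nonneg_left this (hw u)
          _ = (∑ u ∈ Icc (-(B : ℤ)) B, w u) *
                ((d : ℝ) ^ i' * ((∑ j ∈ range d, fac d m η j ^ θ) / d) ^ k *
                  (fac d m η j ^ θ * z ^ θ)) := by rw [Finset.sum_mul]
          _ ≤ _ := by
              calc _ ≤ 1 * ((d : ℝ) ^ i' * ((∑ j ∈ range d, fac d m η j ^ θ) / d) ^ k *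
                  (fac d m η j ^ θ * z ^ θ)) := mul_le_mul_of_nonneg_right hw1 hX
                _ = _ := one_mul _
      have hpow : d ^ (i' + 1) = d * d ^ i' := by ring
      rw [hpow, sum_split d (d ^ i') (fun u => Q d m r w B M F (y + c * (u : ℤ)))]
      refine (Finset.sum_le_sum key).trans (le_of_eq ?_)
      rw [← Finset.mul_sum, ← Finset.sum_mul, sum_residues hd hc y (fun j => fac d m η j ^ θ)]
      generalize (∑ j ∈ range d, fac d m η j ^ θ) = S
      have hS : S = d * (S / d) := by field_simp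
      generalize hρ' : S / (d : ℝ) = ρ' at hS ⊢
      rw [hS]
      ring

end Pool.Agent.U594.RP
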